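import Mathlib
import Pool.Agent.Q197.Marc

/-!
# MP_6e3e44_an: `L^γ[0,1]` is a Lipschitz interpolation space between `L^β` and `L^α`

For all real exponents `1 ≤ β < γ < α` the space `L^γ[0,1]` is a Lipschitz interpolation space
between `L^β[0,1]` and `L^α[0,1]`, with the explicit constant
`C = 2 (γ/(γ-β) + γ/(α-γ))^{1/γ}`.

Proof: for `x, y` in `L^β` and a height `s` split `x - y = a + b` with `b` the part of modulus at
most `s`.  Then `Ux - Uy = (Ux - U(y+b)) + (U(y+b) - Uy)`; the first term is controlled in `L^β` by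
`a`, and the second in `L^α` by `b`: this is the hypothesis when `y` lies in `L^α`, and for general
`y` it follows by approximating `y` in `L^β` and Fatou's lemma.  A Marcinkiewicz type argument
finishes the proof.
-/

set_option autoImplicit false

namespace Pool.Agent.Results.MP_6e3e44_an.LipschitzInterpolation

open MeasureTheory Set Filter Topology
open scoped ENNReal NNReal

/-- Lebesgue measure on `[0,1]`. -/
noncomputable abbrev leb : Measure ℝ := volume.restrict (Icc (0 : ℝ) 1)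

/-- The space `L^p[0,1]` of complex-valued functions. -/
abbrev L (p : ℝ) : Type := Lp ℂ (ENNReal.ofReal p) leb

/-- The `L^p[0,1]` (semi)norm of a function, with value in `[0,∞]`. -/
noncomputable abbrev nrm (p : ℝ) (f : ℝ → ℂ) : ℝ≥0∞ := eLpNorm f (ENNReal.ofReal p) leb

/-- `U`, defined on `L^β[0,1]`, is `M₀`-Lipschitz on `L^β[0,1]`, maps `L^α[0,1]` into itself and is
`M₁`-Lipschitz there. -/
def Admissible (β α : ℝ) (U : L β → L β) (M₀ M₁ : ℝ≥0) : Prop :=
  (∀ x y : L β, nrm β (U x - U y) ≤ M₀ * nrm β (x - y)) ∧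
  (∀ x : L β, MemLp x (ENNReal.ofReal α) leb → MemLp (U x) (ENNReal.ofReal α) leb) ∧
  (∀ x y : L β, MemLp x (ENNReal.ofReal α) leb → MemLp y (ENNReal.ofReal α) leb →
    nrm α (U x - U y) ≤ M₁ * nrm α (x - y))

/-- `L^γ[0,1]` is a Lipschitz interpolation space with constant `C` between `L^β[0,1]` and
`L^α[0,1]`. -/
def IsLipschitzInterpolation (β γ α : ℝ) (C : ℝ≥0) : Prop :=
  ∀ (U : L β → L β) (M₀ M₁ : ℝ≥0), Admissible β α U M₀ M₁ →
    (∀ x : L β, MemLp x (ENNReal.ofReal γ) leb → MemLp (U x) (ENNReal.ofReal γ) leb) ∧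
    (∀ x y : L β, MemLp x (ENNReal.ofReal γ) leb → MemLp y (ENNReal.ofReal γ) leb →
      nrm γ (U x - U y) ≤ C * max M₀ M₁ * nrm γ (x - y))

/-- The second Lipschitz condition for base points outside `L^α`. -/
lemma star {β α : ℝ} (hβ : 1 ≤ β) {U : L β → L β} {M₀ M₁ : ℝ≥0} (hU : Admissible β α U M₀ M₁)
    (y b : L β) (hb : MemLp b (ENNReal.ofReal α) leb) :
    nrm α (U (y + b) - U y) ≤ M₁ * nrm α b := by
  have hβ0 : ENNReal.ofReal β ≠ 0 := by
    rw [Ne, ENNReal.ofReal_eq_zero, not_le]; linarith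
  have hβt : ENNReal.ofReal β ≠ ∞ := ENNReal.ofReal_ne_top
  have hβ1 : 1 ≤ ENNReal.ofReal β := by
    rw [← ENNReal.ofReal_one]; exact ENNReal.ofReal_le_ofReal hβ
  obtain ⟨h0, hm, h1⟩ := hU
  have hex : ∀ n : ℕ, ∃ g : SimpleFunc ℝ ℂ,
      eLpNorm (⇑y - ⇑g) (ENNReal.ofReal β) leb < ((n : ℝ≥0∞) + 1)⁻¹ ∧
        MemLp g (ENNReal.ofReal β) leb := by
    intro n
    refine (Lp.memLp y).exists_simpleFunc_eLpNorm_sub_lt hβt ?_
    simp
  choose g hg hgL using hex
  let Y : ℕ → L β := fun n => (hgL n).toLp (g n)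
  have hYg : ∀ n, ⇑(Y n) =ᵐ[leb] g n := fun n => (hgL n).coeFn_toLp
  have hYα : ∀ n, MemLp (Y n) (ENNReal.ofReal α) leb := fun n =>
    (memLp_congr_ae (hYg n)).2 ((g n).memLp_of_isFiniteMeasure _ _)
  have hYbα : ∀ n, MemLp (Y n + b : L β) (ENNReal.ofReal α) leb := fun n =>
    (memLp_congr_ae (Lp.coeFn_add _ _)).2 ((hYα n).add hb)
  have hYy : ∀ n, nrm β (Y n - y) ≤ ((n : ℝ≥0∞) + 1)⁻¹ := by
    intro n
    have h2 : (⇑(Y n) - ⇑y : ℝ → ℂ) =ᵐ[leb] ⇑(g n) - ⇑y := (hYg n).sub (ae_eq_refl _)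
    rw [nrm, eLpNorm_congr_ae h2, eLpNorm_sub_comm]
    exact (hg n).le
  have hYby : ∀ n, nrm β ((Y n + b : L β) - (y + b : L β)) ≤ ((n : ℝ≥0∞) + 1)⁻¹ := by
    intro n
    have h2 : (⇑(Y n + b : L β) - ⇑(y + b : L β) : ℝ → ℂ) =ᵐ[leb] ⇑(Y n) - ⇑y := by
      filter_upwards [Lp.coeFn_add (Y n) b, Lp.coeFn_add y b] with t ht1 ht2
      simp only [Pi.sub_apply, ht1, ht2, Pi.add_apply]
      ring
    rw [nrm, eLpNorm_congr_ae h2]
    exact hYy n
  -- the differences converge in `L^β`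
  have hconv : Tendsto (fun n => nrm β ((⇑(U (Y n + b)) - ⇑(U (Y n))) -
      (⇑(U (y + b)) - ⇑(U y)))) atTop (𝓝 0) := by
    have hle : ∀ n, nrm β ((⇑(U (Y n + b)) - ⇑(U (Y n))) - (⇑(U (y + b)) - ⇑(U y))) ≤
        (M₀ : ℝ≥0∞) * ((n : ℝ≥0∞) + 1)⁻¹ + M₀ * ((n : ℝ≥0∞) + 1)⁻¹ := by
      intro n
      have h2 : ((⇑(U (Y n + b)) - ⇑(U (Y n))) - (⇑(U (y + b)) - ⇑(U y)) : ℝ → ℂ) =
          (⇑(U (Y n + b)) - ⇑(U (y + b))) - (⇑(U (Y n)) - ⇑(U y)) := by
        ext t; simp only [Pi.sub_apply]; ring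
      rw [h2]
      refine (eLpNorm_sub_le ((Lp.aestronglyMeasurable _).sub (Lp.aestronglyMeasurable _))
        ((Lp.aestronglyMeasurable _).sub (Lp.aestronglyMeasurable _)) hβ1).trans ?_
      refine add_le_add ?_ ?_
      · exact (h0 _ _).trans (mul_le_mul_right (hYby n) _)
      · exact (h0 _ _).trans (mul_le_mul_right (hYy n) _)
    have hlim : Tendsto (fun n : ℕ => (M₀ : ℝ≥0∞) * ((n : ℝ≥0∞) + 1)⁻¹ +
        M₀ * ((n : ℝ≥0∞) + 1)⁻¹) atTop (𝓝 0) := by
      have h3 : Tendsto (fun n : ℕ => ((n : ℝ≥0∞) + 1)⁻¹) atTop (𝓝 0) := by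
        have := (ENNReal.tendsto_inv_nat_nhds_zero).comp (tendsto_add_atTop_nat 1)
        refine this.congr fun n => ?_
        simp [Function.comp]
      have h4 : Tendsto (fun n : ℕ => (M₀ : ℝ≥0∞) * ((n : ℝ≥0∞) + 1)⁻¹) atTop (𝓝 0) := by
        have := ENNReal.Tendsto.const_mul h3 (Or.inr (ENNReal.coe_ne_top (r := M₀)))
        simpa using this
      simpa using h4.add h4
    exact tendsto_of_tendsto_of_tendsto_of_le_of_le tendsto_const_nhds hlim
      (fun _ => zero_le) hle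
  have hmeas := tendstoInMeasure_of_tendsto_eLpNorm_of_ne_top hβ0 hβt
    (fun n => (Lp.aestronglyMeasurable (U (Y n + b))).sub (Lp.aestronglyMeasurable (U (Y n))))
    ((Lp.aestronglyMeasurable (U (y + b))).sub (Lp.aestronglyMeasurable (U y))) hconv
  obtain ⟨ns, -, hns⟩ := hmeas.exists_seq_tendsto_ae
  refine (Lp.eLpNorm_lim_le_liminf_eLpNorm
    (fun k => (Lp.aestronglyMeasurable (U (Y (ns k) + b))).sub
      (Lp.aestronglyMeasurable (U (Y (ns k))))) _ hns).trans ?_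
  have hb' : ∀ k, eLpNorm (⇑(U (Y (ns k) + b)) - ⇑(U (Y (ns k)))) (ENNReal.ofReal α) leb ≤
      M₁ * nrm α b := by
    intro k
    refine (h1 _ _ (hYbα _) (hYα _)).trans (mul_le_mul_right ?_ _)
    have h2 : (⇑(Y (ns k) + b : L β) - ⇑(Y (ns k)) : ℝ → ℂ) =ᵐ[leb] b := by
      filter_upwards [Lp.coeFn_add (Y (ns k)) b] with t ht1
      simp only [Pi.sub_apply, ht1, Pi.add_apply]
      ring
    rw [nrm, eLpNorm_congr_ae h2]
  calc atTop.liminf (fun k => eLpNorm (⇑(U (Y (ns k) + b)) - ⇑(U (Y (ns k))))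
        (ENNReal.ofReal α) leb) ≤ atTop.liminf (fun _ : ℕ => M₁ * nrm α b) :=
        liminf_le_liminf (Eventually.of_forall hb')
    _ = M₁ * nrm α b := liminf_const _

/-- Chebyshev's inequality in the form needed. -/
lemma cheb {p : ℝ} (hp : 1 ≤ p) {f k : ℝ → ℂ} (hf : AEStronglyMeasurable f leb) {M : ℝ}
    (hM : 0 < M) (hfk : nrm p f ≤ ENNReal.ofReal M * nrm p k) {t : ℝ} (ht : 0 < t) :
    leb {ω | t / 2 ≤ ‖f ω‖} ≤ ENNReal.ofReal (t ^ (-p)) *
      ∫⁻ ω, ENNReal.ofReal ((2 * M * ‖k ω‖) ^ p) ∂leb := by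
  have hp0 : ENNReal.ofReal p ≠ 0 := by
    rw [Ne, ENNReal.ofReal_eq_zero, not_le]; linarith
  have hpt : ENNReal.ofReal p ≠ ∞ := ENNReal.ofReal_ne_top
  have hpr : (ENNReal.ofReal p).toReal = p := ENNReal.toReal_ofReal (by linarith)
  have hp' : 0 < p := by linarith
  have h1 := mul_meas_ge_le_pow_eLpNorm' leb hp0 hpt hf (ENNReal.ofReal (t / 2))
  rw [hpr] at h1
  have hset : {x | ENNReal.ofReal (t / 2) ≤ ‖f x‖ₑ} = {ω | t / 2 ≤ ‖f ω‖} := by
    ext ω
    simp only [mem_ofPred_eq]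
    rw [← ofReal_norm, ENNReal.ofReal_le_ofReal_iff (norm_nonneg _)]
  rw [hset] at h1
  have h2 : eLpNorm f (ENNReal.ofReal p) leb ^ p ≤
      ENNReal.ofReal (M ^ p) * ∫⁻ ω, ENNReal.ofReal (‖k ω‖ ^ p) ∂leb := by
    refine (ENNReal.rpow_le_rpow hfk hp'.le).trans ?_
    rw [ENNReal.mul_rpow_of_nonneg _ _ hp'.le, ENNReal.ofReal_rpow_of_nonneg hM.le hp'.le]
    refine mul_le_mul_right (le_of_eq ?_) _
    rw [nrm, eLpNorm_eq_lintegral_rpow_enorm_toReal hp0 hpt, hpr, ← ENNReal.rpow_mul,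
      one_div_mul_cancel hp'.ne', ENNReal.rpow_one]
    refine lintegral_congr fun ω => ?_
    rw [← ofReal_norm, ENNReal.ofReal_rpow_of_nonneg (norm_nonneg _) hp'.le]
  have h3 : ENNReal.ofReal ((t / 2) ^ p) * leb {ω | t / 2 ≤ ‖f ω‖} ≤
      ENNReal.ofReal (M ^ p) * ∫⁻ ω, ENNReal.ofReal (‖k ω‖ ^ p) ∂leb := by
    rw [← ENNReal.ofReal_rpow_of_nonneg (by positivity) hp'.le]
    exact h1.trans h2
  have ht2 : 0 < t / 2 := by positivity
  calc leb {ω | t / 2 ≤ ‖f ω‖}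
      = ENNReal.ofReal ((t / 2) ^ (-p)) * (ENNReal.ofReal ((t / 2) ^ p) *
          leb {ω | t / 2 ≤ ‖f ω‖}) := by
        rw [← mul_assoc, ← ENNReal.ofReal_mul (by positivity), ← Real.rpow_add ht2,
          neg_add_cancel, Real.rpow_zero, ENNReal.ofReal_one, one_mul]
    _ ≤ ENNReal.ofReal ((t / 2) ^ (-p)) * (ENNReal.ofReal (M ^ p) *
          ∫⁻ ω, ENNReal.ofReal (‖k ω‖ ^ p) ∂leb) := mul_le_mul_right h3 _
    _ = ENNReal.ofReal (t ^ (-p)) * ∫⁻ ω, ENNReal.ofReal ((2 * M * ‖k ω‖) ^ p) ∂leb := by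
        have h4 : (t / 2) ^ (-p) * M ^ p = t ^ (-p) * (2 * M) ^ p := by
          rw [Real.div_rpow ht.le (by norm_num), Real.mul_rpow (by norm_num) hM.le,
            Real.rpow_neg (by norm_num : (0 : ℝ) ≤ 2)]
          field_simp
        rw [← mul_assoc, ← ENNReal.ofReal_mul (by positivity), h4,
          ENNReal.ofReal_mul (by positivity), mul_assoc, ← lintegral_const_mul']
        · congr 1
          refine lintegral_congr fun ω => ?_
          rw [← ENNReal.ofReal_mul (by positivity), ← Real.mul_rpow (by positivity)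
            (norm_nonneg _)]
        · exact ENNReal.ofReal_ne_top

/-- The main estimate, for positive `M`. -/
lemma main_pos {β γ α : ℝ} (hβ : 1 ≤ β) (h1 : β < γ) (h2 : γ < α) {U : L β → L β}
    {M₀ M₁ : ℝ≥0} (hU : Admissible β α U M₀ M₁) (M : ℝ) (hM : 0 < M) (hM0 : (M₀ : ℝ) ≤ M)
    (hM1 : (M₁ : ℝ) ≤ M) (x y : L β) :
    nrm γ (U x - U y) ≤ ENNReal.ofReal (2 * (γ / (γ - β) + γ / (α - γ)) ^ (1 / γ) * M) *
      nrm γ (x - y) := by
  have hβ1 : 1 ≤ ENNReal.ofReal β := by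
    rw [← ENNReal.ofReal_one]; exact ENNReal.ofReal_le_ofReal hβ
  have hγ0 : 0 < γ := by linarith
  have hγβ : 0 < γ - β := by linarith
  have hαγ : 0 < α - γ := by linarith
  have hM0' : (M₀ : ℝ≥0∞) ≤ ENNReal.ofReal M := by
    rw [← ENNReal.ofReal_coe_nnreal]; exact ENNReal.ofReal_le_ofReal hM0
  have hM1' : (M₁ : ℝ≥0∞) ≤ ENNReal.ofReal M := by
    rw [← ENNReal.ofReal_coe_nnreal]; exact ENNReal.ofReal_le_ofReal hM1
  set h : L β := x - y with hh
  have hhm : Measurable (⇑h : ℝ → ℂ) := (Lp.stronglyMeasurable h).measurable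
  have hg : AEStronglyMeasurable (⇑(U x) - ⇑(U y) : ℝ → ℂ) leb :=
    (Lp.aestronglyMeasurable _).sub (Lp.aestronglyMeasurable _)
  have hK : 0 < 2 * M := by positivity
  have key := Q197.Marc.marc (μ := leb) (by linarith : 0 < β) h1 h2 hg hhm (2 * M) hK ?_
  · -- conclude
    have hγp : ENNReal.ofReal γ ≠ 0 := by
      rw [Ne, ENNReal.ofReal_eq_zero, not_le]; linarith
    have hγr : (ENNReal.ofReal γ).toReal = γ := ENNReal.toReal_ofReal hγ0.le
    have hnrm : ∀ f : ℝ → ℂ, nrm γ f = (∫⁻ ω, ENNReal.ofReal (‖f ω‖ ^ γ) ∂leb) ^ (1 / γ) := by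
      intro f
      rw [nrm, eLpNorm_eq_lintegral_rpow_enorm_toReal hγp ENNReal.ofReal_ne_top, hγr]
      congr 1
      refine lintegral_congr fun ω => ?_
      rw [← ofReal_norm, ENNReal.ofReal_rpow_of_nonneg (norm_nonneg _) hγ0.le]
    have hxy : nrm γ (⇑x - ⇑y) = nrm γ h := by
      rw [nrm, nrm]
      exact eLpNorm_congr_ae (Lp.coeFn_sub x y).symm
    rw [hxy, hnrm, hnrm]
    refine (ENNReal.rpow_le_rpow key (by positivity)).trans ?_
    rw [ENNReal.mul_rpow_of_nonneg _ _ (by positivity),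
      ENNReal.ofReal_rpow_of_nonneg (by positivity) (by positivity)]
    refine mul_le_mul_left (ENNReal.ofReal_le_ofReal (le_of_eq ?_)) _
    rw [Real.mul_rpow (by positivity) (by positivity), ← Real.rpow_mul (by positivity),
      mul_one_div_cancel hγ0.ne', Real.rpow_one]
    have : γ * (1 / (γ - β) + 1 / (α - γ)) = γ / (γ - β) + γ / (α - γ) := by ring
    rw [this]
    ring
  · intro t ht
    -- the low part of `h`
    have hSm : MeasurableSet {ω : ℝ | 2 * M * ‖h ω‖ ≤ t} :=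
      measurableSet_le (hhm.norm.const_mul _) measurable_const
    set S : Set ℝ := {ω : ℝ | 2 * M * ‖h ω‖ ≤ t} with hS
    have hlow : ∀ p : ℝ≥0∞, MemLp (S.indicator (⇑h : ℝ → ℂ)) p leb := by
      intro p
      refine MemLp.of_bound (hhm.indicator hSm).aestronglyMeasurable (t / (2 * M)) ?_
      refine Eventually.of_forall fun ω => ?_
      by_cases hω : ω ∈ S
      · rw [indicator_of_mem hω, le_div_iff₀ hK, mul_comm]
        exact hω
      · rw [indicator_of_notMem hω, norm_zero]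
        positivity
    let b : L β := (hlow (ENNReal.ofReal β)).toLp _
    have hbae : ⇑b =ᵐ[leb] S.indicator (⇑h : ℝ → ℂ) := (hlow (ENNReal.ofReal β)).coeFn_toLp
    have hbα : MemLp b (ENNReal.ofReal α) leb := (memLp_congr_ae hbae).2 (hlow _)
    have hA : nrm β (U x - U (y + b)) ≤ ENNReal.ofReal M * nrm β (Sᶜ.indicator (⇑h : ℝ → ℂ)) := by
      refine (hU.1 x (y + b)).trans (mul_le_mul' hM0' (le_of_eq ?_))
      refine eLpNorm_congr_ae ?_
      filter_upwards [Lp.coeFn_add y b, hbae, Lp.coeFn_sub x y] with ω e1 e2 e3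
      simp only [Pi.sub_apply, e1, Pi.add_apply, e2]
      have e3' : h ω = x ω - y ω := e3
      by_cases hω : ω ∈ S
      · rw [indicator_of_mem hω, indicator_of_notMem (by simpa using hω), e3']
        ring
      · rw [indicator_of_notMem hω, indicator_of_mem (by simpa using hω), e3']
        ring
    have hB : nrm α (U (y + b) - U y) ≤ ENNReal.ofReal M * nrm α (S.indicator (⇑h : ℝ → ℂ)) := by
      refine (star hβ hU y b hbα).trans (mul_le_mul' hM1' (le_of_eq ?_))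
      exact eLpNorm_congr_ae hbae
    have hmA : AEStronglyMeasurable (⇑(U x) - ⇑(U (y + b)) : ℝ → ℂ) leb :=
      (Lp.aestronglyMeasurable _).sub (Lp.aestronglyMeasurable _)
    have hmB : AEStronglyMeasurable (⇑(U (y + b)) - ⇑(U y) : ℝ → ℂ) leb :=
      (Lp.aestronglyMeasurable _).sub (Lp.aestronglyMeasurable _)
    have cA := cheb hβ hmA hM hA ht
    have cB := cheb (by linarith : 1 ≤ α) hmB hM hB ht
    have hsub : {ω : ℝ | t < ‖(⇑(U x) - ⇑(U y)) ω‖} ⊆
        {ω | t / 2 ≤ ‖(⇑(U x) - ⇑(U (y + b))) ω‖} ∪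
          {ω | t / 2 ≤ ‖(⇑(U (y + b)) - ⇑(U y)) ω‖} := by
      intro ω hω
      by_contra hcon
      simp only [mem_union, mem_ofPred_eq, not_or, not_le] at hcon hω
      have htri : ‖(⇑(U x) - ⇑(U y)) ω‖ ≤ ‖(⇑(U x) - ⇑(U (y + b))) ω‖ +
          ‖(⇑(U (y + b)) - ⇑(U y)) ω‖ := by
        have : (⇑(U x) - ⇑(U y)) ω = (⇑(U x) - ⇑(U (y + b))) ω + (⇑(U (y + b)) - ⇑(U y)) ω := by
          simp only [Pi.sub_apply]; ring
        rw [this]
        exact norm_add_le _ _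
      linarith [hcon.1, hcon.2]
    refine (measure_mono hsub).trans ((measure_union_le _ _).trans (add_le_add ?_ ?_))
    · refine cA.trans (mul_le_mul_right (lintegral_mono fun ω => ?_) _)
      dsimp only
      by_cases hω : ω ∈ S
      · rw [indicator_of_notMem (by simpa using hω), norm_zero, mul_zero,
          Real.zero_rpow (by linarith)]
        simp
      · rw [indicator_of_mem (by simpa using hω), if_pos (by simpa [hS] using hω)]
    · refine cB.trans (mul_le_mul_right (lintegral_mono fun ω => ?_) _)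
      dsimp only
      by_cases hω : ω ∈ S
      · rw [indicator_of_mem hω, if_pos (show 2 * M * ‖h ω‖ ≤ t from hω)]
      · rw [indicator_of_notMem hω, norm_zero, mul_zero, Real.zero_rpow (by linarith)]
        simp

/-- The constant. -/
noncomputable def const (β γ α : ℝ) : ℝ≥0 :=
  Real.toNNReal (2 * (γ / (γ - β) + γ / (α - γ)) ^ (1 / γ))

/-- For all exponents `1 ≤ β < γ < α < ∞`, the space `L^γ[0,1]` is a Lipschitz interpolation space
between `L^β[0,1]` and `L^α[0,1]`; the constant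
`C = 2 (γ/(γ-β) + γ/(α-γ))^{1/γ} > 0` is admissible. -/
theorem result : ∀ β γ α : ℝ, 1 ≤ β → β < γ → γ < α →
    0 < const β γ α ∧ IsLipschitzInterpolation β γ α (const β γ α) := by
  intro β γ α hβ h1 h2
  have hγ0 : 0 < γ := by linarith
  have hγβ : 0 < γ - β := by linarith
  have hαγ : 0 < α - γ := by linarith
  have hCpos : 0 < 2 * (γ / (γ - β) + γ / (α - γ)) ^ (1 / γ) := by positivity
  refine ⟨Real.toNNReal_pos.2 hCpos, ?_⟩
  intro U M₀ M₁ hU
  have hC : (const β γ α : ℝ≥0∞) = ENNReal.ofReal (2 * (γ / (γ - β) + γ / (α - γ)) ^ (1 / γ)) := rfl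
  have hlip : ∀ x y : L β, nrm γ (U x - U y) ≤ const β γ α * max M₀ M₁ * nrm γ (x - y) := by
    intro x y
    rcases eq_or_lt_of_le (show (0 : ℝ≥0) ≤ max M₀ M₁ from zero_le) with h0 | h0
    · -- both constants vanish
      have hM0 : M₀ = 0 := by
        have : M₀ ≤ max M₀ M₁ := le_max_left _ _
        rw [← h0] at this
        exact le_antisymm this zero_le
      have h3 := hU.1 x y
      rw [hM0] at h3
      simp only [ENNReal.coe_zero, zero_mul, nonpos_iff_eq_zero] at h3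
      have hβ0 : ENNReal.ofReal β ≠ 0 := by
        rw [Ne, ENNReal.ofReal_eq_zero, not_le]; linarith
      have h4 : (⇑(U x) - ⇑(U y) : ℝ → ℂ) =ᵐ[leb] 0 :=
        (eLpNorm_eq_zero_iff ((Lp.aestronglyMeasurable _).sub (Lp.aestronglyMeasurable _))
          hβ0).1 h3
      rw [nrm, eLpNorm_congr_ae h4, eLpNorm_zero]
      exact zero_le
    · have h3 := main_pos hβ h1 h2 hU ((max M₀ M₁ : ℝ≥0) : ℝ) (by exact_mod_cast h0)
        (by exact_mod_cast le_max_left _ _) (by exact_mod_cast le_max_right _ _) x y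
      refine h3.trans (le_of_eq ?_)
      rw [ENNReal.ofReal_mul hCpos.le, ← hC, ENNReal.ofReal_coe_nnreal, ENNReal.coe_max]
  refine ⟨?_, fun x y _ _ => hlip x y⟩
  intro x hx
  have h0α : MemLp (0 : L β) (ENNReal.ofReal α) leb :=
    (memLp_congr_ae (Lp.coeFn_zero _ _ _)).2 MemLp.zero
  have hU0 : MemLp (U 0) (ENNReal.ofReal γ) leb :=
    (hU.2.1 0 h0α).mono_exponent (ENNReal.ofReal_le_ofReal h2.le)
  have hdiff : MemLp (⇑(U x) - ⇑(U 0) : ℝ → ℂ) (ENNReal.ofReal γ) leb := by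
    refine ⟨(Lp.aestronglyMeasurable _).sub (Lp.aestronglyMeasurable _), ?_⟩
    refine lt_of_le_of_lt (hlip x 0) ?_
    refine ENNReal.mul_lt_top (ENNReal.mul_lt_top ENNReal.coe_lt_top ?_) ?_
    · exact max_lt ENNReal.coe_lt_top ENNReal.coe_lt_top
    · have : (⇑x - ⇑(0 : L β) : ℝ → ℂ) =ᵐ[leb] ⇑x := by
        filter_upwards [Lp.coeFn_zero ℂ (ENNReal.ofReal β) leb] with t ht
        simp only [Pi.sub_apply, ht, Pi.zero_apply, sub_zero]
      rw [nrm, eLpNorm_congr_ae this]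
      exact hx.2
  have := hdiff.add hU0
  simpa using this

end Pool.Agent.Results.MP_6e3e44_an.LipschitzInterpolation
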